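import Pool.Agent.Helper96.MP.Defs

set_option autoImplicit false

namespace Pool.Agent.Helper96.MP

open Complex MeasureTheory Filter Topology
open scoped MatrixGroups

/-- norm argument -/
lemma bdry_abs {P : Type} [Fintype P] (s : Equiv.Perm P) (E : P → ℝ) (l a : ℝ) (hl : 1 < l)
    (ha : a ^ 2 ≠ (l + 1) ^ 2) (h : ∀ u, l * E (s u) + E (s.symm u) = a * E u) : ∀ u, E u = 0 := by
  classical
  set n := ∑ u, E u ^ 2 with hn
  set X := ∑ u, E (s u) * E u with hX
  set Z := ∑ u, E (s u) * E (s.symm u) with hZ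
  have hX' : ∑ u, E (s.symm u) * E u = X := by
    rw [hX, ← Equiv.sum_comp s.symm (fun u => E (s u) * E u)]
    refine Finset.sum_congr rfl fun u _ => ?_
    simp [mul_comm]
  have hn1 : ∑ u, E (s u) ^ 2 = n := Equiv.sum_comp s (fun u => E u ^ 2)
  have hn2 : ∑ u, E (s.symm u) ^ 2 = n := Equiv.sum_comp s.symm (fun u => E u ^ 2)
  have e1 : l * X + X = a * n := by
    have : ∑ u, (l * E (s u) + E (s.symm u)) * E u = ∑ u, (a * E u) * E u :=
      Finset.sum_congr rfl fun u _ => by rw [h u]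
    have h1 : ∑ u, (l * E (s u) + E (s.symm u)) * E u = l * X + ∑ u, E (s.symm u) * E u := by
      rw [hX, Finset.mul_sum, ← Finset.sum_add_distrib]
      exact Finset.sum_congr rfl fun u _ => by ring
    rw [hX'] at h1
    have h2 : ∑ u, (a * E u) * E u = a * n := by
      rw [hn, Finset.mul_sum]
      exact Finset.sum_congr rfl fun u _ => by ring
    linarith
  have e2 : l * n + Z = a * X := by
    have : ∑ u, (l * E (s u) + E (s.symm u)) * E (s u) = ∑ u, (a * E u) * E (s u) :=
      Finset.sum_congr rfl fun u _ => by rw [h u]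
    have h1 : ∑ u, (l * E (s u) + E (s.symm u)) * E (s u) = l * n + Z := by
      rw [← hn1, hZ, Finset.mul_sum, ← Finset.sum_add_distrib]
      exact Finset.sum_congr rfl fun u _ => by ring
    have h2 : ∑ u, (a * E u) * E (s u) = a * X := by
      rw [hX, Finset.mul_sum]
      exact Finset.sum_congr rfl fun u _ => by ring
    linarith
  have e3 : l * Z + n = a * X := by
    have : ∑ u, (l * E (s u) + E (s.symm u)) * E (s.symm u) = ∑ u, (a * E u) * E (s.symm u) :=
      Finset.sum_congr rfl fun u _ => by rw [h u]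
    have h1 : ∑ u, (l * E (s u) + E (s.symm u)) * E (s.symm u) = l * Z + n := by
      rw [← hn2, hZ, Finset.mul_sum, ← Finset.sum_add_distrib]
      exact Finset.sum_congr rfl fun u _ => by ring
    have h2 : ∑ u, (a * E u) * E (s.symm u) = a * X := by
      rw [← hX', Finset.mul_sum]
      exact Finset.sum_congr rfl fun u _ => by ring
    linarith
  have e4 : Z = n := by
    have : (l - 1) * (Z - n) = 0 := by linear_combination e3 - e2
    rcases mul_eq_zero.1 this with h | h
    · linarith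
    · linarith
  have e5 : ((l + 1) ^ 2 - a ^ 2) * n = 0 := by
    rw [e4] at e2
    linear_combination (l + 1) * e2 + a * e1
  have e6 : n = 0 := by
    rcases mul_eq_zero.1 e5 with h | h
    · exact absurd (by linarith) ha
    · exact h
  intro u
  have h7 := (Finset.sum_eq_zero_iff_of_nonneg (fun u _ => sq_nonneg (E u))).1 e6 u
    (Finset.mem_univ u)
  exact pow_eq_zero_iff (two_ne_zero) |>.1 h7

/-- equivalence of cusps -/
lemma bdry_cusp {N : ℕ} {D : ℤ → ℤ → ℝ}
    (hD : ∀ p q r s : ℤ, G0 N p q r s → ∀ x y : ℤ, (x ≠ 0 ∨ y ≠ 0) →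
      D (p * x + q * y) (r * x + s * y) = D x y)
    {x y x' y' m m' j : ℤ} (h : IsCoprime x y) (h' : IsCoprime x' y')
    (hm : (N : ℤ) ∣ m * m' - 1) (h1 : (N : ℤ) ∣ y' - m * y) (h2 : (N : ℤ) ∣ m * x' - x - j * y) :
    D x y = D x' y' := by
  obtain ⟨v, u0, hvu⟩ := h
  obtain ⟨v', u0', hvu'⟩ := h'
  -- x v - u y = 1
  set u := -u0 with hu
  set u' := -u0' with hu'
  have e1 : x * v - u * y = 1 := by rw [hu]; linarith
  have e2 : x' * v' - u' * y' = 1 := by rw [hu']; linarith
  set w := v' * u + j * v' * v - m ^ 2 * u' * v with hw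
  set k := m' * w with hk
  have hne : x ≠ 0 ∨ y ≠ 0 := by
    by_contra hcon
    push Not at hcon
    rw [hcon.1, hcon.2] at e1
    simp at e1
  have hG : G0 N (x' * v - (u' + k * x') * y) (-x' * u + (u' + k * x') * x)
      (y' * v - (v' + k * y') * y) (-y' * u + (v' + k * y') * x) := by
    constructor
    · linear_combination (x * v - u * y) * e2 + e1
    · obtain ⟨A, hA⟩ := hm
      obtain ⟨B, hB⟩ := h1
      obtain ⟨C, hC⟩ := h2
      have hy' : y' = m * y + N * B := by linarith
      have hx : m * x' = x + j * y + N * C := by linarith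
      have hmm : m * m' = 1 + N * A := by linarith
      -- m v - v' = y w + N * (...)
      refine ⟨B * v - k * B * y + y * (C * v' * v - m * u' * B * v) - w * y ^ 2 * A, ?_⟩
      have e3 : m * v - v' = y * w + N * (C * v' * v - m * u' * B * v) := by
        rw [hw]
        have : m = m * (x' * v' - u' * y') := by rw [e2, mul_one]
        calc m * v - v' = (m * (x' * v' - u' * y')) * v - v' := by rw [← this]
          _ = ((m * x') * v' - m * u' * y') * v - v' := by ring
          _ = ((x + j * y + N * C) * v' - m * u' * (m * y + N * B)) * v - v' := by rw [hx, hy']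
          _ = v' * (x * v - u * y) - v' + y * (v' * u + j * v' * v - m ^ 2 * u' * v)
              + N * (C * v' * v - m * u' * B * v) := by ring
          _ = _ := by rw [e1]; ring
      have e4 : k * m = w + N * (A * w) := by
        rw [hk]
        linear_combination w * hmm
      calc y' * v - (v' + k * y') * y
          = (m * y + N * B) * v - (v' + k * (m * y + N * B)) * y := by rw [← hy']
        _ = y * (m * v - v') + N * B * v - (k * m) * y ^ 2 - k * N * B * y := by ring
        _ = y * (y * w + N * (C * v' * v - m * u' * B * v)) + N * B * v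
            - (w + N * (A * w)) * y ^ 2 - k * N * B * y := by rw [e3, e4]
        _ = _ := by ring
  have := hD _ _ _ _ hG x y hne
  have a1 : (x' * v - (u' + k * x') * y) * x + (-x' * u + (u' + k * x') * x) * y = x' := by
    linear_combination x' * e1
  have a2 : (y' * v - (v' + k * y') * y) * x + (-y' * u + (v' + k * y') * x) * y = y' := by
    linear_combination y' * e1
  rw [a1, a2] at this
  exact this.symm

lemma bdry_Tn {l : ℕ} (hl : l.Prime) (F : ℕ × ℕ × ℕ → ℝ) :
    ∑ t ∈ Tn l, F t = F (l, 0, 1) + ∑ b ∈ Finset.range l, F (1, b, l) := by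
  classical
  have h1 : Tn l = insert (l, 0, 1) ((Finset.range l).image fun b => ((1 : ℕ), b, l)) := by
    ext ⟨a, b, d⟩
    simp only [Tn, Finset.mem_filter, Finset.mem_product, Finset.mem_range, Finset.mem_insert,
      Finset.mem_image, Prod.mk.injEq]
    constructor
    · rintro ⟨-, h, hb⟩
      have hd : a ∣ l := ⟨d, h.symm⟩
      rcases (Nat.dvd_prime hl).1 hd with h1 | h1
      · right
        rw [h1, one_mul] at h
        exact ⟨b, by omega, h1.symm, rfl, h.symm⟩
      · left
        rw [h1] at h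
        have : d = 1 := by
          have hlp := hl.pos
          exact Nat.eq_of_mul_eq_mul_left hlp (by rw [h, mul_one])
        exact ⟨h1, by omega, this⟩
    · rintro (⟨h1, h2, h3⟩ | ⟨b', hb', h1, h2, h3⟩)
      · subst h1 h2 h3
        have := hl.pos
        refine ⟨⟨by omega, by omega, by omega⟩, by omega, by omega⟩
      · subst h1 h2 h3
        have := hl.pos
        refine ⟨⟨by omega, by omega, by omega⟩, by omega, by omega⟩
  rw [h1, Finset.sum_insert]
  · rw [Finset.sum_image]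
    intro b _ b' _ h
    simpa using h
  · intro h
    rw [Finset.mem_image] at h
    obtain ⟨b, _, hb⟩ := h
    simp only [Prod.mk.injEq] at hb
    have := hl.one_lt
    omega

/-- the Hecke relation at a coprime pair -/
lemma bdry_rel {N l : ℕ} (hl : l.Prime) {l' : ℤ} (hl' : (N : ℤ) ∣ l * l' - 1)
    {D : ℤ → ℤ → ℝ} (h0 : Hom0 D)
    (hD : ∀ p q r s : ℤ, G0 N p q r s → ∀ x y : ℤ, (x ≠ 0 ∨ y ≠ 0) →
      D (p * x + q * y) (r * x + s * y) = D x y)
    {x y x1 y1 x2 y2 : ℤ} (h : IsCoprime x y) (h1 : IsCoprime x1 y1) (h2 : IsCoprime x2 y2)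
    (hx1 : (N : ℤ) ∣ x1 - x) (hy1 : (N : ℤ) ∣ y1 - l * y)
    (hx2 : (N : ℤ) ∣ x2 - x) (hy2 : (N : ℤ) ∣ y2 - l' * y) :
    ∑ t ∈ Tn l, D (t.1 * x + t.2.1 * y) (t.2.2 * y) = l * D x1 y1 + D x2 y2 := by
  classical
  have hlp : Prime (l : ℤ) := Nat.prime_iff_prime_int.1 hl
  have hl0 : (l : ℤ) ≠ 0 := by exact_mod_cast hl.ne_zero
  rw [bdry_Tn hl]
  have hxy : IsUnit (1 : ℤ) := isUnit_one
  obtain ⟨A, hA⟩ := hl'
  obtain ⟨X1, hX1⟩ := hx1
  obtain ⟨Y1, hY1⟩ := hy1
  obtain ⟨X2, hX2⟩ := hx2
  obtain ⟨Y2, hY2⟩ := hy2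
  -- terms with l not dividing x + b y
  have hgen : ∀ b : ℕ, ¬ (l : ℤ) ∣ x + b * y → D (x + b * y) (l * y) = D x1 y1 := by
    intro b hb
    have hc1 : IsCoprime (x + b * y) (l : ℤ) := (((Prime.coprime_iff_not_dvd hlp).2 hb)).symm
    have hc2 : IsCoprime (x + b * y) y := by
      have := h.add_mul_right_left (b : ℤ)
      exact this
    have hc : IsCoprime (x + b * y) (l * y) := hc1.mul_right hc2
    refine bdry_cusp hD (m := 1) (m' := 1) (j := -(b * l')) hc h1 (by simp) ⟨Y1, by linarith⟩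
      ⟨X1 + A * (b * y), ?_⟩
    linear_combination hX1 + (b * y) * hA
  by_cases hly : (l : ℤ) ∣ y
  · obtain ⟨y0, hy0⟩ := hly
    have hlx : ¬ (l : ℤ) ∣ x := by
      intro hcon
      have := h.isUnit_of_dvd' hcon ⟨y0, hy0⟩
      exact hlp.not_isUnit this
    have hsum : ∑ b ∈ Finset.range l, D (((1 : ℕ) : ℤ) * x + (b : ℤ) * y) ((l : ℤ) * y)
        = l * D x1 y1 := by
      rw [Finset.sum_congr rfl (g := fun _ => D x1 y1)]
      · rw [Finset.sum_const, Finset.card_range, nsmul_eq_mul]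
      · intro b _
        have : ((1 : ℕ) : ℤ) * x + (b : ℤ) * y = x + b * y := by push_cast; ring
        rw [this]
        apply hgen
        intro hcon
        apply hlx
        have h3 : (l : ℤ) ∣ b * y := ⟨b * y0, by rw [hy0]; ring⟩
        exact (dvd_add_left h3).1 hcon
    simp only
    rw [hsum]
    have h4 : D (((l : ℕ) : ℤ) * x + ((0 : ℕ) : ℤ) * y) (((1 : ℕ) : ℤ) * y) = D x2 y2 := by
      have e1 : ((l : ℕ) : ℤ) * x + ((0 : ℕ) : ℤ) * y = l * x := by push_cast; ring
      have e2 : ((1 : ℕ) : ℤ) * y = l * y0 := by rw [hy0]; push_cast; ring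
      rw [e1, e2, h0 _ _ _ hl0]
      have hc : IsCoprime x y0 := by
        rw [hy0] at h
        exact h.of_mul_right_right
      refine bdry_cusp hD (m := 1) (m' := 1) (j := 0) hc h2 (by simp) ⟨Y2 + A * y0, ?_⟩ ⟨X2, ?_⟩
      · rw [hy0] at hY2
        linear_combination hY2 + y0 * hA
      · linear_combination hX2
    rw [h4]
    ring
  · -- l does not divide y
    have hcl : IsCoprime (l : ℤ) y := (Prime.coprime_iff_not_dvd hlp).2 hly
    obtain ⟨e, f, hef⟩ := hcl
    -- f y = 1 mod l ; b0 = -x f mod l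
    set b0 : ℕ := ((-x * f) % (l : ℤ)).toNat with hb0
    have hlpos : (0 : ℤ) < l := by exact_mod_cast hl.pos
    have hb0' : (b0 : ℤ) = (-x * f) % (l : ℤ) := by
      rw [hb0]
      exact Int.toNat_of_nonneg (Int.emod_nonneg _ hl0)
    have hb0lt : b0 < l := by
      have : (b0 : ℤ) < l := by rw [hb0']; exact Int.emod_lt_of_pos _ hlpos
      exact_mod_cast this
    have hdiv : (l : ℤ) ∣ x + b0 * y := by
      have h5 : (l : ℤ) ∣ (b0 : ℤ) - (-x * f) := by
        rw [hb0']
        have := Int.emod_add_mul_ediv (-x * f) (l : ℤ)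
        exact ⟨-((-x * f) / (l : ℤ)), by linarith⟩
      obtain ⟨g, hg⟩ := h5
      refine ⟨g * y + x * e, ?_⟩
      have : (b0 : ℤ) = -x * f + l * g := by linarith
      rw [this]
      linear_combination (-x) * hef
    have huniq : ∀ b : ℕ, b < l → b ≠ b0 → ¬ (l : ℤ) ∣ x + b * y := by
      intro b hb hne hcon
      have h6 : (l : ℤ) ∣ ((b : ℤ) - b0) * y := by
        have := dvd_sub hcon hdiv
        have e1 : x + (b : ℤ) * y - (x + b0 * y) = ((b : ℤ) - b0) * y := by ring
        rwa [e1] at this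
      rcases hlp.dvd_or_dvd h6 with h7 | h7
      · have h8 : |(b : ℤ) - b0| < l := by
          rw [abs_lt]
          have : (b : ℤ) < l := by exact_mod_cast hb
          have : (b0 : ℤ) < l := by exact_mod_cast hb0lt
          constructor <;> omega
        have h9 := Int.eq_zero_of_abs_lt_dvd h7 h8
        exact hne (by omega)
      · exact hly h7
    have hsum : ∑ b ∈ Finset.range l, D (((1 : ℕ) : ℤ) * x + (b : ℤ) * y) ((l : ℤ) * y)
        = ((l : ℝ) - 1) * D x1 y1 + D x2 y2 := by
      have hval : ∀ b ∈ Finset.range l, D (((1 : ℕ) : ℤ) * x + (b : ℤ) * y) ((l : ℤ) * y)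
          = D x1 y1 + if b = b0 then D x2 y2 - D x1 y1 else 0 := by
        intro b hb
        have e1 : ((1 : ℕ) : ℤ) * x + (b : ℤ) * y = x + b * y := by push_cast; ring
        rw [e1]
        split_ifs with hbb
        · rw [hbb]
          obtain ⟨z, hz⟩ := hdiv
          rw [hz, h0 _ _ _ hl0]
          have hc : IsCoprime z y := by
            have h10 : IsCoprime (x + b0 * y) y := h.add_mul_right_left (b0 : ℤ)
            rw [hz] at h10
            exact h10.of_mul_left_right
          have : D z y = D x2 y2 := by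
            refine bdry_cusp hD (m := l') (m' := l) (j := -(l' * b0)) hc h2 ⟨A, by linarith⟩
              ⟨Y2, hY2⟩ ⟨l' * X2 + A * z, ?_⟩
            linear_combination l' * hX2 + z * hA + l' * hz
          rw [this]
          ring
        · rw [hgen b (huniq b (Finset.mem_range.1 hb) hbb), add_zero]
      rw [Finset.sum_congr rfl hval, Finset.sum_add_distrib, Finset.sum_const, Finset.card_range,
        nsmul_eq_mul, Finset.sum_ite_eq' (Finset.range l) b0, if_pos (Finset.mem_range.2 hb0lt)]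
      ring
    simp only
    rw [hsum]
    have h4 : D (((l : ℕ) : ℤ) * x + ((0 : ℕ) : ℤ) * y) (((1 : ℕ) : ℤ) * y) = D x1 y1 := by
      have e1 : ((l : ℕ) : ℤ) * x + ((0 : ℕ) : ℤ) * y = l * x := by push_cast; ring
      have e2 : ((1 : ℕ) : ℤ) * y = y := by push_cast; ring
      rw [e1, e2]
      have hc : IsCoprime ((l : ℤ) * x) y := by
        refine IsCoprime.mul_left ⟨e, f, hef⟩ h
      refine bdry_cusp hD (m := l) (m' := l') (j := 0) hc h1 ⟨A, hA⟩ ⟨Y1, hY1⟩ ⟨l * X1, ?_⟩
      linear_combination (l : ℤ) * hX1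
    rw [h4]
    ring

theorem st_BDRY (hS : ST_SURJ) : ST_BDRY := by
  classical
  intro N l hN hl hlN D h0 hD a κ ha hH
  have : NeZero N := ⟨by omega⟩
  have hcop : Nat.Coprime l N := (Nat.Prime.coprime_iff_not_dvd hl).2 hlN
  obtain ⟨l', B, hl'B⟩ : ∃ l' B : ℤ, l' * l + B * N = 1 := by
    have : IsCoprime (l : ℤ) (N : ℤ) := Nat.isCoprime_iff_coprime.2 hcop
    obtain ⟨u, v, huv⟩ := this
    exact ⟨u, v, huv⟩
  have hl' : (N : ℤ) ∣ l * l' - 1 := ⟨-B, by linarith⟩
  have hl'2 : ((l : ℤ) : ZMod N) * ((l' : ℤ) : ZMod N) = 1 := by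
    have := (ZMod.intCast_zmod_eq_zero_iff_dvd (l * l' - 1) N).2 hl'
    push_cast at this ⊢
    exact sub_eq_zero.1 this
  have hne : (l : ℝ) + 1 - a ≠ 0 := by
    intro hcon
    apply ha
    have : a = l + 1 := by linarith
    rw [this]
  set c : ℝ := κ / ((l : ℝ) + 1 - a) with hc
  -- classes with a coprime lift
  let Lf : ZMod N × ZMod N → Prop := fun u => ∃ x y : ℤ, IsCoprime x y ∧
    (x : ZMod N) = u.1 ∧ (y : ZMod N) = u.2
  -- the value
  let E : ZMod N × ZMod N → ℝ := fun u => if h : Lf u then D h.choose h.choose_spec.choose - c else 0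
  have hE : ∀ (u : ZMod N × ZMod N) (x y : ℤ), IsCoprime x y → (x : ZMod N) = u.1 →
      (y : ZMod N) = u.2 → E u = D x y - c := by
    intro u x y hxy hx hy
    have hL : Lf u := ⟨x, y, hxy, hx, hy⟩
    have h1 : E u = D hL.choose hL.choose_spec.choose - c := dif_pos hL
    rw [h1]
    have key : ∀ x' y' : ℤ, IsCoprime x' y' → (x' : ZMod N) = u.1 → (y' : ZMod N) = u.2 →
        D x' y' = D x y := by
      intro x' y' g1 g2 g3
      refine bdry_cusp hD (m := 1) (m' := 1) (j := 0) g1 hxy (by simp) ?_ ?_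
      · rw [← ZMod.intCast_zmod_eq_zero_iff_dvd]
        push_cast
        rw [g3, hy]; ring
      · rw [← ZMod.intCast_zmod_eq_zero_iff_dvd]
        push_cast
        rw [g2, hx]; ring
    have hs := hL.choose_spec.choose_spec
    rw [key _ _ hs.1 hs.2.1 hs.2.2]
  have hE0 : ∀ u, ¬ Lf u → E u = 0 := fun u hu => dif_neg hu
  -- lifting
  have hlift : ∀ x y x1 y1 : ℤ, IsCoprime x y → ∀ m m' : ℤ, (N : ℤ) ∣ m * m' - 1 →
      (N : ℤ) ∣ x1 - x → (N : ℤ) ∣ y1 - m * y → ∃ x2 y2 : ℤ, IsCoprime x2 y2 ∧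
        (N : ℤ) ∣ x2 - x1 ∧ (N : ℤ) ∣ y2 - y1 := by
    intro x y x1 y1 hxy m m' hm hx hy
    refine (hS N hN).1 x1 y1 ?_
    unfold Uni
    rw [← Int.isCoprime_iff_gcd_eq_one]
    -- show ideal generated is everything
    obtain ⟨u, v, huv⟩ := hxy
    obtain ⟨A, hA⟩ := hm
    obtain ⟨X, hX⟩ := hx
    obtain ⟨Y, hY⟩ := hy
    have key : u * x1 + v * m' * y1 = 1 + N * (u * X + v * m' * Y + v * y * A) := by
      have hx1 : x1 = x + N * X := by linarith
      have hy1 : y1 = m * y + N * Y := by linarith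
      rw [hx1, hy1]
      linear_combination huv + v * y * hA
    have hg : ((Int.gcd x1 y1 : ℕ) : ℤ) ∣ u * x1 + v * m' * y1 :=
      dvd_add (Dvd.dvd.mul_left (Int.gcd_dvd_left x1 y1) _)
        (Dvd.dvd.mul_left (Int.gcd_dvd_right x1 y1) _)
    obtain ⟨G, hG⟩ := hg
    refine ⟨G, -(u * X + v * m' * Y + v * y * A), ?_⟩
    linear_combination key - hG
  -- the permutation
  let s : Equiv.Perm (ZMod N × ZMod N) :=
    { toFun := fun u => (u.1, ((l : ℤ) : ZMod N) * u.2)
      invFun := fun u => (u.1, ((l' : ℤ) : ZMod N) * u.2)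
      left_inv := by
        intro u
        refine Prod.ext rfl ?_
        change ((l' : ℤ) : ZMod N) * (((l : ℤ) : ZMod N) * u.2) = u.2
        rw [← mul_assoc, mul_comm ((l' : ℤ) : ZMod N), hl'2, one_mul]
      right_inv := by
        intro u
        refine Prod.ext rfl ?_
        change ((l : ℤ) : ZMod N) * (((l' : ℤ) : ZMod N) * u.2) = u.2
        rw [← mul_assoc, hl'2, one_mul] }
  have hs1 : ∀ u, Lf u → Lf (s u) := by
    rintro u ⟨x, y, hxy, hx, hy⟩
    obtain ⟨x2, y2, h2, hx2, hy2⟩ := hlift x y x (l * y) hxy l l' hl' (by simp) (by simp)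
    refine ⟨x2, y2, h2, ?_, ?_⟩
    · rw [← ZMod.intCast_zmod_eq_zero_iff_dvd] at hx2
      push_cast at hx2
      change (x2 : ZMod N) = u.1
      rw [← hx]
      exact sub_eq_zero.1 hx2
    · rw [← ZMod.intCast_zmod_eq_zero_iff_dvd] at hy2
      push_cast at hy2
      change (y2 : ZMod N) = ((l : ℤ) : ZMod N) * u.2
      rw [← hy]
      push_cast
      exact sub_eq_zero.1 hy2
  have hs2 : ∀ u, Lf u → Lf (s.symm u) := by
    rintro u ⟨x, y, hxy, hx, hy⟩
    obtain ⟨x2, y2, h2, hx2, hy2⟩ := hlift x y x (l' * y) hxy l' l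
      (by rw [mul_comm]; exact hl') (by simp) (by simp)
    refine ⟨x2, y2, h2, ?_, ?_⟩
    · rw [← ZMod.intCast_zmod_eq_zero_iff_dvd] at hx2
      push_cast at hx2
      change (x2 : ZMod N) = u.1
      rw [← hx]
      exact sub_eq_zero.1 hx2
    · rw [← ZMod.intCast_zmod_eq_zero_iff_dvd] at hy2
      push_cast at hy2
      change (y2 : ZMod N) = ((l' : ℤ) : ZMod N) * u.2
      rw [← hy]
      exact sub_eq_zero.1 hy2
  have hrel : ∀ u, (l : ℝ) * E (s u) + E (s.symm u) = a * E u := by
    intro u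
    by_cases hu : Lf u
    · obtain ⟨x, y, hxy, hx, hy⟩ := hu
      obtain ⟨x1, y1, h1, hx1, hy1⟩ := hs1 u ⟨x, y, hxy, hx, hy⟩
      obtain ⟨x2, y2, h2, hx2, hy2⟩ := hs2 u ⟨x, y, hxy, hx, hy⟩
      rw [hE u x y hxy hx hy, hE (s u) x1 y1 h1 hx1 hy1, hE (s.symm u) x2 y2 h2 hx2 hy2]
      have r1 : (N : ℤ) ∣ x1 - x := by
        rw [← ZMod.intCast_zmod_eq_zero_iff_dvd]
        push_cast
        rw [hx1, hx]
        exact sub_self _
      have r2 : (N : ℤ) ∣ y1 - l * y := by
        rw [← ZMod.intCast_zmod_eq_zero_iff_dvd]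
        push_cast
        rw [hy1, hy]
        change ((l : ℤ) : ZMod N) * u.2 - (l : ZMod N) * u.2 = 0
        push_cast
        ring
      have r3 : (N : ℤ) ∣ x2 - x := by
        rw [← ZMod.intCast_zmod_eq_zero_iff_dvd]
        push_cast
        rw [hx2, hx]
        exact sub_self _
      have r4 : (N : ℤ) ∣ y2 - l' * y := by
        rw [← ZMod.intCast_zmod_eq_zero_iff_dvd]
        push_cast
        rw [hy2, hy]
        exact sub_self _
      have h5 := bdry_rel hl hl' h0 hD hxy h1 h2 r1 r2 r3 r4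
      have hne0 : x ≠ 0 ∨ y ≠ 0 := by
        by_contra hcon
        push Not at hcon
        rw [hcon.1, hcon.2] at hxy
        exact not_isCoprime_zero_zero hxy
      have h6 := hH x y hne0
      rw [h5] at h6
      have h7 : c * ((l : ℝ) + 1 - a) = κ := by
        rw [hc]; exact div_mul_cancel₀ _ hne
      linear_combination h6 - h7
    · rw [hE0 u hu, hE0 (s u) ?_, hE0 (s.symm u) ?_]
      · ring
      · intro hcon
        apply hu
        have := hs1 _ hcon
        rwa [Equiv.apply_symm_apply] at this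
      · intro hcon
        apply hu
        have := hs2 _ hcon
        rwa [Equiv.symm_apply_apply] at this
  have hzero := bdry_abs s E l a (by exact_mod_cast hl.one_lt) ha hrel
  have hcop' : ∀ x y : ℤ, IsCoprime x y → D x y = c := by
    intro x y hxy
    have := hE ((x : ZMod N), (y : ZMod N)) x y hxy rfl rfl
    rw [hzero] at this
    linarith
  have hall : ∀ x y : ℤ, (x ≠ 0 ∨ y ≠ 0) → D x y = c := by
    intro x y hxy
    have hg : Int.gcd x y ≠ 0 := by
      intro hcon
      rw [Int.gcd_eq_zero_iff] at hcon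
      rcases hxy with h | h
      · exact h hcon.1
      · exact h hcon.2
    obtain ⟨x0, hx0⟩ := Int.gcd_dvd_left x y
    obtain ⟨y0, hy0⟩ := Int.gcd_dvd_right x y
    have hgz : ((Int.gcd x y : ℕ) : ℤ) ≠ 0 := by exact_mod_cast hg
    have hc0 : IsCoprime x0 y0 := by
      have hb := Int.gcd_eq_gcd_ab x y
      refine ⟨Int.gcdA x y, Int.gcdB x y, ?_⟩
      apply mul_left_cancel₀ hgz
      rw [mul_one]
      calc ((Int.gcd x y : ℕ) : ℤ) * (Int.gcdA x y * x0 + Int.gcdB x y * y0)
          = (((Int.gcd x y : ℕ) : ℤ) * x0) * Int.gcdA x y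
            + (((Int.gcd x y : ℕ) : ℤ) * y0) * Int.gcdB x y := by ring
        _ = x * Int.gcdA x y + y * Int.gcdB x y := by rw [← hx0, ← hy0]
        _ = _ := hb.symm
    calc D x y = D (((Int.gcd x y : ℕ) : ℤ) * x0) (((Int.gcd x y : ℕ) : ℤ) * y0) := by
          rw [← hx0, ← hy0]
      _ = D x0 y0 := h0 _ _ _ hgz
      _ = c := hcop' x0 y0 hc0
  intro x y x' y' hxy hxy'
  rw [hall x y hxy, hall x' y' hxy']

end Pool.Agent.Helper96.MP
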